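import Pool.Agent.H2.ST.Targets

/-!
Board st2_modules, row COA: coarsening of a grading.
-/

set_option autoImplicit false

namespace Pool.Agent.H91.ST2

open Pool.Agent.H2.ST MvPolynomial

section

variable {k A Γ Γ' : Type} [Field k] [CommRing A] [Algebra k A] [AddCommGroup Γ]
  [AddCommGroup Γ'] {W : Γ → Submodule k A} {π : Γ →+ Γ'}

/-- bilinear maps which respect the grading respect the coarse grading -/
theorem coa_bil (B : A →ₗ[k] A →ₗ[k] A)
    (hB : ∀ a b f g, f ∈ W a → g ∈ W b → B f g ∈ W (a + b)) (a' b' : Γ') (f g : A)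
    (hf : f ∈ co W π a') (hg : g ∈ co W π b') : B f g ∈ co W π (a' + b') := by
  have h1 : ∀ a, π a = a' → ∀ f ∈ W a, B f g ∈ co W π (a' + b') := by
    intro a ha f hf
    have h2 : co W π b' ≤ (co W π (a' + b')).comap (B f) := by
      refine iSup₂_le fun b hb x hx => ?_
      rw [Submodule.mem_comap]
      have h3 := le_co W π (a + b) (hB a b f x hf hx)
      rwa [map_add, ha, hb] at h3
    exact h2 hg
  have h2 : co W π a' ≤ (co W π (a' + b')).comap (B.flip g) :=
    iSup₂_le fun a ha x hx => h1 a ha x hx
  exact h2 hf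

/-- the components of an element of the coarse grading -/
theorem coa_cmp (h : Gr W) (b : Γ') (x : A) (hx : x ∈ co W π b) (a : Γ) (ha : π a ≠ b) :
    cmp h x a = 0 := by
  classical
  have h2 : co W π b ≤ (LinearMap.ker ((Finsupp.lapply a : (Γ →₀ A) →ₗ[k] A) ∘ₗ cmp h)) := by
    refine iSup₂_le fun a' ha' y hy => ?_
    rw [LinearMap.mem_ker, LinearMap.comp_apply, cmp_of_mem h hy, Finsupp.lapply_apply,
      Finsupp.single_apply, if_neg]
    intro h3
    exact ha (by rw [← h3, ha'])
  have h3 := h2 hx
  rwa [LinearMap.mem_ker, LinearMap.comp_apply, Finsupp.lapply_apply] at h3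

theorem coa_gr (h : Gr W) : Gr (co W π) := by
  classical
  refine ⟨?_, ?_, ?_, ?_⟩
  · have h1 := le_co W π 0 h.one
    rwa [map_zero] at h1
  · intro a b f g hf hg
    exact coa_bil (LinearMap.mul k A) (fun a b f g hf hg => h.mul a b f g hf hg) a b f g hf hg
  · intro f
    refine ⟨(cmp h f).sum fun a x => Finsupp.single (π a) x, fun b => ?_, ?_⟩
    · rw [Finsupp.sum, Finsupp.finsetSum_apply]
      refine Submodule.sum_mem _ fun a _ => ?_
      rw [Finsupp.single_apply]
      split_ifs with hab
      · rw [← hab]
        exact le_co W π a (cmp_mem h f a)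
      · exact Submodule.zero_mem _
    · rw [Finsupp.sum_sum_index (fun _ => rfl) (fun _ _ _ => rfl)]
      conv_rhs => rw [← cmp_sum h f]
      exact Finsupp.sum_congr fun a _ => Finsupp.sum_single_index rfl
  · intro c hc hs
    ext b
    rw [Finsupp.zero_apply]
    have h1 : cmp h (c b) = 0 := by
      ext a
      rw [Finsupp.zero_apply]
      by_cases hab : π a = b
      · have h2 : cmp h (c.sum fun _ x => x) a = cmp h (c b) a := by
          rw [Finsupp.sum, map_sum, Finsupp.finsetSum_apply, Finset.sum_eq_single b]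
          · intro b' _ hb'
            exact coa_cmp h b' _ (hc b') a (fun h3 => hb' (by rw [← h3, hab]))
          · intro hb
            rw [Finsupp.notMem_support_iff.1 hb, map_zero, Finsupp.zero_apply]
        rw [← h2, hs, map_zero, Finsupp.zero_apply]
      · exact coa_cmp h b _ (hc b) a hab
    rw [← cmp_sum h (c b), h1, Finsupp.sum_zero_index]

end

theorem pf_COA : T_COA := by
  intro k _ m Γ Γ' _ _ W π h
  refine { coa_gr h.toGr with pbr := ?_, van := ?_ }
  · intro a b f g hf hg
    exact coa_bil (LinearMap.mk₂ k br (fun f g h => add_br f g h) (fun c f g => smul_br c f g)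
      (fun f g h => br_add f g h) (fun c f g => br_smul c f g))
      (fun a b f g hf hg => h.pbr a b f g hf hg) a b f g hf hg
  · intro b hb f hf
    have h2 : co W π b ≤ (RingHom.ker (constantCoeff : Pol k m →+* k)).restrictScalars k := by
      refine iSup₂_le fun a ha x hx => ?_
      rw [Submodule.restrictScalars_mem, RingHom.mem_ker]
      refine h.van a (fun h3 => hb ?_) x hx
      rw [← ha, h3, map_zero]
    have h3 := h2 hf
    rwa [Submodule.restrictScalars_mem, RingHom.mem_ker] at h3

end Pool.Agent.H91.ST2
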