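import Pool.Agent.H2.ST.Targets

/-!
Board st2_modules, row SPL: existence of splitting data.
-/

set_option autoImplicit false

namespace Pool.Agent.H91.ST2

open Pool.Agent.H2.ST MvPolynomial

theorem pf_SPL (h1 : T_PAR) (h2 : T_COM) (h3 : T_KRL) : T_SPL := by
  intro k _ _ m Γ _ _ W y w hW hA hπ
  classical
  have hπ' : ∀ i, ∃ π : Γ →+ ℤ, w i ≠ 0 → (0 < π (w i) ∧ ∀ j, j ≠ i → π (w j) = 0) := by
    intro i
    by_cases h : w i ≠ 0
    · obtain ⟨π, hp⟩ := hπ i h
      exact ⟨π, fun _ => hp⟩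
    · exact ⟨0, fun h' => absurd h' h⟩
  choose π hp using hπ'
  have hq : ∀ i, ∃ (u v : Pol k m) (c : k), w i ≠ 0 → Par W (w i) (π i) u v c := by
    intro i
    by_cases h : w i ≠ 0
    · obtain ⟨u, v, c, huv⟩ := h1 k m Γ W y w i (π i) hW hA (hp i h).1 (hp i h).2
      exact ⟨u, v, c, fun _ => huv⟩
    · exact ⟨0, 0, 0, fun h' => absurd h' h⟩
  choose u v c hpar using hq
  have hcom : ∀ i j, w i ≠ 0 → w j ≠ 0 → i ≠ j →
      br (u i) (u j) = 0 ∧ br (u i) (v j) = 0 ∧ br (v i) (u j) = 0 ∧ br (v i) (v j) = 0 := by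
    intro i j hi hj hij
    exact h2 k m Γ W (w i) (w j) (π i) (π j) (u i) (v i) (u j) (v j) (c i) (c j) hW (hpar i hi)
      (hpar j hj) ((hp i hi).2 j (Ne.symm hij)) ((hp j hj).2 i hij)
  refine ⟨π, u, v, c, { hW with par := hpar, pz := ?_, uu := ?_, vv := ?_, uv := ?_, wt := ?_ }⟩
  · intro i hi j hj
    exact (hp i hi).2 j hj
  · intro i j hi hj
    by_cases hij : i = j
    · rw [hij]
      exact br_self _
    · exact (hcom i j hi hj hij).1
  · intro i j hi hj
    by_cases hij : i = j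
    · rw [hij]
      exact br_self _
    · exact (hcom i j hi hj hij).2.2.2
  · intro i j hi hj hij
    exact (hcom i j hi hj hij).2.1
  · intro χ f hf hf0
    by_contra hcon
    apply hf0
    refine (h3 k m Γ W y w hW hA χ f hf).1 fun α hα => ?_
    exact hcon ⟨fun i => (α (Sum.inl i) : ℤ) - (α (Sum.inr i) : ℤ), hα.symm⟩

end Pool.Agent.H91.ST2
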